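import Mathlib
import Pool.Agent.W1.PatLaw

/-!
# MP_7f399b_lc — the inclusion depth of pattern languages, alphabets with at least 16 letters
-/

namespace Pool.Agent.Results.MP_7f399b_lc.LargeAlphabets

open Pool.Agent.PatDepth Pool.Agent.H344R3.PD Pool.Agent.W1.Pat

/-- Let `A` be a finite alphabet with at least 16 letters. Then
`2|p| - #var(p) > 2|q| - #var(q)` whenever `L(p) ⊊ L(q)`, and the inclusion depth of every
non-empty pattern `p` is exactly `2|p| - #var(p) - 1`. -/
theorem result (A : Type) [Fintype A] (hA : 16 ≤ Fintype.card A) :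
    (∀ p q : List (ℕ ⊕ A), p ≠ [] → q ≠ [] → Lang p ⊂ Lang q →
      2 * q.length + nvar p < 2 * p.length + nvar q) ∧
    (∀ p : List (ℕ ⊕ A), p ≠ [] → IsGreatest {n | HasChain p n} (2 * p.length - nvar p - 1)) := by
  have h1 : Nontrivial A := Fintype.one_lt_card_iff_nontrivial.mp (by omega)
  exact ⟨fun p q _ _ h => law (c := 1) le_rfl (by norm_num; omega) h,
      fun p h0 => depth_exact hA h0⟩

end Pool.Agent.Results.MP_7f399b_lc.LargeAlphabets
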