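import Mathlib
import Pool.Agent.W1.PatLaw

/-!
# MP_7f399b_lc — a linear upper bound for the inclusion depth of pattern languages
-/

namespace Pool.Agent.Results.MP_7f399b_lc.LinearDepth

open Pool.Agent.PatDepth Pool.Agent.H344R3.PD Pool.Agent.W1.Pat

/-- Let `A` be a finite alphabet with at least two letters.
(1) If `c ≥ 2` and `((c+1)^(c+1))^2 ≤ (c^c)^2 |A|^c`, then
`(c+1)|p| - #var(p) > (c+1)|q| - #var(q)` whenever `L(p) ⊊ L(q)`, and the inclusion depth of
every `p` is at most `(c+1)|p| - #var(p) - c`.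
(2) This condition holds for `c = 10` and every `A`, so the inclusion depth of every `p` is at
most `11|p| - #var(p) - 10`. -/
theorem result (A : Type) [Fintype A] [Nontrivial A] :
    (∀ c : ℕ, 2 ≤ c → ((c + 1) ^ (c + 1)) ^ 2 ≤ (c ^ c) ^ 2 * Fintype.card A ^ c →
      (∀ p q : List (ℕ ⊕ A), p ≠ [] → q ≠ [] → Lang p ⊂ Lang q →
        (c + 1) * q.length + nvar p < (c + 1) * p.length + nvar q) ∧
      (∀ p : List (ℕ ⊕ A), p ≠ [] → ∀ n, HasChain p n → n + c + nvar p ≤ (c + 1) * p.length)) ∧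
    (∀ p : List (ℕ ⊕ A), p ≠ [] → ∀ n, HasChain p n → n + 10 + nvar p ≤ 11 * p.length) := by
  have hA : 2 ≤ Fintype.card A := Fintype.one_lt_card
  refine ⟨fun c hc hs => ⟨fun p q _ _ h => law (by omega) hs h,
      fun p _ n h => depth_le (by omega) hs h⟩,
    fun p _ n h => depth_le (c := 10) (by norm_num) ?_ h⟩
  have h1 : 2 ^ 10 ≤ Fintype.card A ^ 10 := Nat.pow_le_pow_left hA 10
  calc ((10 + 1) ^ (10 + 1)) ^ 2 ≤ (10 ^ 10) ^ 2 * 2 ^ 10 := by norm_num
    _ ≤ _ := Nat.mul_le_mul_left _ h1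

end Pool.Agent.Results.MP_7f399b_lc.LinearDepth
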