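import Mathlib
import Pool.Agent.PatDepth.Defs
import Pool.Agent.H344R3.PD.Depth
import Pool.Agent.W6.PAT.Law

/-!
# MP_7f399b_lc — exact inclusion depth of all patterns of length up to about `(2/3)|A|^2`
-/

namespace Pool.Agent.Results.MP_7f399b_lc.QuadraticRange

open Pool.Agent.PatDepth Pool.Agent.H344R3.PD Pool.Agent.W6.PAT

/-- Let `A` be a finite alphabet with `σ ≥ 3` letters and `p` a non-empty pattern.
(1) If `3|p| < 2(σ-1)σ + 6σ - 3`, or `(|p|-2σ+1 choose 2σ-2) < σ^(2σ-2)`, then the inclusion depth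
of `p` is exactly `2|p| - #var(p) - 1`.
(2) The upper bound for longer patterns: if `a ≥ 1` and `3|p| < 2(σ-1)σ^a + 6σ - 3`, or
`(|p|-2σ+1 choose 2σ-2) < (σ^a)^(2σ-2)`, then the inclusion depth of `p` is at most
`(a+1)|p| - #var(p) - a`. -/
theorem result (A : Type) [Fintype A] (hA : 3 ≤ Fintype.card A) (p : List (ℕ ⊕ A)) (hp : p ≠ []) :
    ((3 * p.length < 2 * (Fintype.card A - 1) * Fintype.card A + 6 * Fintype.card A - 3 ∨
        (p.length + 1 - 2 * Fintype.card A).choose (2 * Fintype.card A - 2) <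
          Fintype.card A ^ (2 * Fintype.card A - 2)) →
      IsGreatest {n | HasChain p n} (2 * p.length - nvar p - 1)) ∧
    (∀ a : ℕ, 1 ≤ a →
      (3 * p.length < 2 * (Fintype.card A - 1) * Fintype.card A ^ a + 6 * Fintype.card A - 3 ∨
        (p.length + 1 - 2 * Fintype.card A).choose (2 * Fintype.card A - 2) <
          (Fintype.card A ^ a) ^ (2 * Fintype.card A - 2)) →
      ∀ n, HasChain p n → n + a + nvar p ≤ (a + 1) * p.length) := by
  have : Nontrivial A := Fintype.one_lt_card_iff_nontrivial.mp (by omega)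
  have h0 : p.length - (2 * Fintype.card A - 2) - 1 = p.length + 1 - 2 * Fintype.card A := by
    omega
  have hcf : ∀ a : ℕ,
      (3 * p.length < 2 * (Fintype.card A - 1) * Fintype.card A ^ a + 6 * Fintype.card A - 3 ∨
        (p.length + 1 - 2 * Fintype.card A).choose (2 * Fintype.card A - 2) <
          (Fintype.card A ^ a) ^ (2 * Fintype.card A - 2)) →
      (p.length - (2 * Fintype.card A - 2) - 1).choose (2 * Fintype.card A - 2) <
        (Fintype.card A ^ a) ^ (2 * Fintype.card A - 2) := by
    rintro a (h | h)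
    · exact closed_form hA h
    · rw [h0]; exact h
  refine ⟨fun h => ?_, fun a ha h n hn => chain_upper' hA ha (hcf a h) hn⟩
  have h1 := hcf 1 (by rw [pow_one]; exact h)
  rw [pow_one] at h1
  exact chain_exact' hp hA h1

end Pool.Agent.Results.MP_7f399b_lc.QuadraticRange
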