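import Mathlib
import Pool.Agent.W1.PatSmall

/-!
# MP_7f399b_lc — inclusions with a length difference smaller than the alphabet
-/

namespace Pool.Agent.Results.MP_7f399b_lc.ShortSteps

open Pool.Agent.PatDepth Pool.Agent.H344R3.PD Pool.Agent.W1.Pat

/-- Let `A` be a finite alphabet with at least two letters and let `L(p) ⊊ L(q)` with
`|p| - |q| ≤ |A| - 2`. Then `|p| - #var(p) ≥ |q| - #var(q)`, and
`2|p| - #var(p) > 2|q| - #var(q)`. -/
theorem result (A : Type) [Fintype A] [Nontrivial A] (p q : List (ℕ ⊕ A)) (_hp : p ≠ [])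
    (_hq : q ≠ []) (h : Lang p ⊂ Lang q) (hl : p.length + 2 ≤ q.length + Fintype.card A) :
    nvar p + q.length ≤ nvar q + p.length ∧
      2 * q.length + nvar p < 2 * p.length + nvar q := by
  obtain ⟨d⟩ : Nonempty A := inferInstance
  have : Inhabited A := ⟨d⟩
  have h0 := ne_length h.subset
  have h1 : nvar p ≤ nvar q + (p.length - q.length) := small (by omega) h.subset h0
  refine ⟨by omega, ?_⟩
  rcases Nat.eq_zero_or_pos (p.length - q.length) with h2 | h2
  · exact partOne h (by omega)
  · omega

end Pool.Agent.Results.MP_7f399b_lc.ShortSteps
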